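import Pool.Agent.H247.VE.Stm

/-!
# Orbits in a chain class of an isolated part (helper825 for helper247), adapted from
`Pool/Agent/H385/SD/TR.lean` (helper385)
-/

set_option autoImplicit false

open Set Filter Topology Metric

universe u

namespace Pool.Agent.H825.VETR2

open Pool.Agent.H247.SD Pool.Agent.H247.VE
open Pool.Agent.R774.OS (CR)
open Pool.Agent.Q182.MC (ChainTo cls)

/-- periodic points are chain recurrent -/
theorem per_CR {X : Type u} [MetricSpace X] [CompactSpace X] (G : X → X) (y : X) (p : ℕ)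
    (hp : 1 ≤ p) (h : G^[p] y = y) : y ∈ CR G := by
  rw [Pool.Agent.R774.OS.mem_CR]
  intro δ hδ
  refine ⟨p, fun j => G^[j] y, hp, rfl, fun j => ?_, fun j => ?_⟩
  · show G^[j + p] y = G^[j] y
    rw [Function.iterate_add_apply, h]
  · show dist (G (G^[j] y)) (G^[j + 1] y) < δ
    rw [Function.iterate_succ_apply', dist_self]
    exact hδ

/-- the chain recurrent points close to a point of an isolated part are in it -/
theorem near_mem {X : Type u} [MetricSpace X] [CompactSpace X] (G : X ≃ₜ X) (K : Set X)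
    (hK : Iso G K) : ∃ s : ℝ, 0 < s ∧ ∀ a ∈ K, ∀ y ∈ CR (G : X → X), dist y a < s → y ∈ K := by
  have hdis : Disjoint K (CR (G : X → X) \ K) := disjoint_sdiff_right
  obtain ⟨s, hs, hd⟩ := hdis.exists_thickenings hK.cl.isCompact hK.cl'
  refine ⟨s, hs, fun a ha y hy hya => ?_⟩
  by_contra hyK
  have h1 : y ∈ thickening s K := mem_thickening_iff.2 ⟨a, ha, hya⟩
  have h2 : y ∈ thickening s (CR (G : X → X) \ K) := self_subset_thickening hs _ ⟨hy, hyK⟩
  exact (Set.disjoint_left.1 hd) h1 h2

theorem main (hCC2 : S_CC2.{u}) : S_TR2.{u} := by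
  intro X _ _ G K hK hSh hη a ha b hb ε hε
  obtain ⟨η, hη, hcls⟩ := hη
  obtain ⟨s, hs, hnear⟩ := near_mem G K hK
  obtain ⟨δ, hδ, hsh⟩ := hSh (min ε (min η s)) (lt_min hε (lt_min hη hs))
  obtain ⟨p, x, k, hp, hper, hxK, hj, hx0, hxk⟩ := hCC2 X G K hK a ha b hb δ hδ
  obtain ⟨y, hy, hyx⟩ := hsh p x hp hper hxK hj
  have hyCR : y ∈ CR (G : X → X) := per_CR G y p hp hy
  have h0 : dist y a < min ε (min η s) := by
    have h1 := hyx 0
    rw [hx0] at h1
    exact h1
  have hyK : y ∈ K := hnear a ha y hyCR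
    (h0.trans_le ((min_le_right _ _).trans (min_le_right _ _)))
  refine ⟨y, hcls a ha y hyK ?_, k, h0.trans_le (min_le_left _ _), ?_⟩
  · rw [dist_comm]
    exact h0.trans_le ((min_le_right _ _).trans (min_le_left _ _))
  · have h1 := hyx k
    rw [hxk] at h1
    exact h1.trans_le (min_le_left _ _)

end Pool.Agent.H825.VETR2
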